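import Pool.Agent.Work.MP_0d53be_an.Full.Defs

/-!
# E/Basic: box masses, elementary facts

Everything is elementary. `mass p s z = ∑_{b ∈ box s} p (z - b)`, `box s = {0, …, 2^s - 1}²`.

* `card_box`: `card_product`, `Int.card_Ico`.
* `mass_nonneg`: a sum of nonnegative terms (`p ≥ 0` everywhere by `pos` and `supp`).
* `mass_supp`: if `mass p s z ≠ 0` then some `p (z - b) ≠ 0`, so `z - b ∈ A`, `z ∈ A + box s`.
* `mass_le`: the points `z - b` are distinct, so the sum is at most `∑_{x ∈ A} p x = 1`.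
* `mass_self_pos`: `0 ∈ box s`.
* `tsum_mass`: `∑' z, ∑_{b ∈ box s} p (z - b) = ∑_{b ∈ box s} ∑' z, p (z - b)
  = ∑_{b} ∑' z, p z = 4 ^ s` (`Summable.tsum_finsetSum`, `Equiv.subRight`, finite support).
* `mass_zero_scale`: `box 0 = {(0,0)}`.
* `mass_mono_scale`: `mass p s (z - 2^s u) ≤ mass p t z` is not needed here.
-/

set_option autoImplicit false

namespace Pool.Agent.Work.MP_0d53be_an.Full

open scoped Pointwise

variable {A : Finset G} {p : G → ℝ}

theorem card_box (s : ℕ) : (box s).card = 4 ^ s := by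
  unfold box
  rw [Finset.card_product, Int.card_Ico, sub_zero]
  have h : ((2 : ℤ) ^ s).toNat = 2 ^ s := by
    rw [Int.toNat_pow_of_nonneg (by norm_num)]
    rfl
  rw [h, ← mul_pow]
  norm_num

theorem mem_box {s : ℕ} {b : G} : b ∈ box s ↔ (0 ≤ b.1 ∧ b.1 < 2 ^ s) ∧ (0 ≤ b.2 ∧ b.2 < 2 ^ s) := by
  unfold box
  rw [Finset.mem_product, Finset.mem_Ico, Finset.mem_Ico]

theorem Prb.nonneg (hp : Prb A p) (z : G) : 0 ≤ p z := by
  by_cases h : z ∈ A
  · exact (hp.pos z h).le
  · exact (hp.supp z h).ge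

theorem Prb.fin (hp : Prb A p) : (Function.support p).Finite := by
  refine A.finite_toSet.subset fun z hz => ?_
  by_contra h
  exact hz (hp.supp z h)

theorem Prb.tsum_eq (hp : Prb A p) : ∑' z, p z = 1 := by
  rw [tsum_eq_sum (s := A) fun z hz => hp.supp z hz, hp.sum_one]

theorem mass_nonneg (hp : Prb A p) (s : ℕ) (z : G) : 0 ≤ mass p s z :=
  Finset.sum_nonneg fun _ _ => hp.nonneg _

theorem mass_supp (hp : Prb A p) {s : ℕ} {z : G} (h : mass p s z ≠ 0) : z ∈ A + box s := by
  unfold mass at h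
  obtain ⟨b, hb, hb'⟩ := Finset.exists_ne_zero_of_sum_ne_zero h
  have h1 : z - b ∈ A := by
    by_contra h2
    exact hb' (hp.supp _ h2)
  rw [Finset.mem_add]
  exact ⟨z - b, h1, b, hb, sub_add_cancel z b⟩

theorem mass_fin (hp : Prb A p) (s : ℕ) : (Function.support (mass p s)).Finite :=
  (A + box s).finite_toSet.subset fun _ hz => mass_supp hp hz

theorem mass_le_one (hp : Prb A p) (s : ℕ) (z : G) : mass p s z ≤ 1 := by
  classical
  unfold mass
  have hinj : Function.Injective fun b : G => z - b := sub_right_injective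
  rw [← Finset.sum_image (f := p) (g := fun b : G => z - b) fun a _ b _ h => hinj h]
  rw [← hp.sum_one]
  calc ∑ x ∈ (box s).image fun b : G => z - b, p x
      ≤ ∑ x ∈ ((box s).image fun b : G => z - b) ∪ A, p x :=
        Finset.sum_le_sum_of_subset_of_nonneg Finset.subset_union_left fun _ _ _ => hp.nonneg _
    _ = ∑ x ∈ A, p x := by
        symm
        refine Finset.sum_subset Finset.subset_union_right fun x _ hx => hp.supp x hx

theorem mass_self_pos (hp : Prb A p) (s : ℕ) {z : G} (hz : z ∈ A) : 0 < mass p s z := by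
  unfold mass
  have h0 : (0 : G) ∈ box s := by
    rw [mem_box]
    have h2 : (0 : ℤ) < 2 ^ s := by positivity
    exact ⟨⟨le_refl _, h2⟩, ⟨le_refl _, h2⟩⟩
  refine Finset.sum_pos' (fun _ _ => hp.nonneg _) ⟨0, h0, ?_⟩
  rw [sub_zero]
  exact hp.pos z hz

theorem mass_zero_scale (p : G → ℝ) (z : G) : mass p 0 z = p z := by
  have h : box 0 = {0} := by
    ext b
    rw [mem_box, Finset.mem_singleton, pow_zero]
    constructor
    · rintro ⟨⟨h1, h2⟩, h3, h4⟩
      ext
      · change b.1 = 0
        omega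
      · change b.2 = 0
        omega
    · rintro rfl
      exact ⟨⟨le_refl _, one_pos⟩, ⟨le_refl _, one_pos⟩⟩
  unfold mass
  rw [h, Finset.sum_singleton, sub_zero]

theorem tsum_mass (hp : Prb A p) (s : ℕ) : ∑' z, mass p s z = 4 ^ s := by
  unfold mass
  have hf : ∀ b : G, (Function.support fun z => p (z - b)).Finite := fun b =>
    hp.fin.preimage ((Equiv.subRight b).injective.injOn)
  have hs : ∀ b : G, Summable fun z => p (z - b) := fun b =>
    summable_of_hasFiniteSupport (hf b)
  rw [Summable.tsum_finsetSum fun b _ => hs b]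
  have h1 : ∀ b : G, ∑' z, p (z - b) = 1 := fun b => by
    rw [← hp.tsum_eq]
    exact (Equiv.subRight b).tsum_eq p
  rw [Finset.sum_congr rfl fun b _ => h1 b, Finset.sum_const, card_box, nsmul_eq_mul, mul_one]
  push_cast
  rfl

end Pool.Agent.Work.MP_0d53be_an.Full
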