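import Pool.Agent.Work.MP_0d53be_an.Full.E.Split

/-!
# E/Conv: the convolution square

`conv A p z = ∑_{x ∈ A} p x * p (z - x)`.

* `Prb.conv`: positive at `x + y` (`x, y ∈ A`): the term of `x` is `p x * p y > 0`, the others are
  `≥ 0`. Zero off `A + A`: if `p x * p (z - x) ≠ 0` with `x ∈ A` then `z - x ∈ A`. The sum over
  `A + A` equals `∑_{x ∈ A} p x ∑_{z ∈ A + A} p (z - x) = ∑_x p x * 1` (for `x ∈ A` the map
  `y ↦ x + y` embeds `A` in `A + A`, and `p (z - x) = 0` elsewhere); or use `∑'` and `tsum`.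
* `mass_conv`: exchange two finite sums.
* `mass_conv_ge`: one term of `mass_conv`.
* `sum_kap`: `mass_split` and `div_self`.
* `drop_add`: `ring` after unfolding `drop`.
-/

set_option autoImplicit false

namespace Pool.Agent.Work.MP_0d53be_an.Full

open scoped Pointwise

variable {A : Finset G} {p : G → ℝ}

theorem Prb.conv (hp : Prb A p) : Prb (A + A) (conv A p) := by
  have hn : ∀ z, 0 ≤ p z := fun z => hp.nonneg z
  refine ⟨fun z hz => ?_, fun z hz => ?_, ?_⟩
  · obtain ⟨x, hx, y, hy, rfl⟩ := Finset.mem_add.1 hz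
    have h1 : p x * p (x + y - x) ≤ ∑ x' ∈ A, p x' * p (x + y - x') :=
      Finset.single_le_sum (f := fun x' => p x' * p (x + y - x'))
        (fun i _ => mul_nonneg (hn i) (hn _)) hx
    have h2 : 0 < p x * p (x + y - x) := by
      rw [add_sub_cancel_left]
      exact mul_pos (hp.pos x hx) (hp.pos y hy)
    exact lt_of_lt_of_le h2 h1
  · refine Finset.sum_eq_zero (fun x hx => ?_)
    have h1 : z - x ∉ A := by
      intro h
      exact hz (Finset.mem_add.2 ⟨x, hx, z - x, h, by abel⟩)
    rw [hp.supp _ h1, mul_zero]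
  · change ∑ z ∈ A + A, ∑ x ∈ A, p x * p (z - x) = 1
    rw [Finset.sum_comm]
    have h1 : ∀ x ∈ A, ∑ z ∈ A + A, p x * p (z - x) = p x := by
      intro x hx
      rw [← Finset.mul_sum]
      have h2 : ∑ z ∈ A + A, p (z - x) = ∑ y ∈ A, p y := by
        symm
        refine Finset.sum_bij_ne_zero (fun y _ _ => x + y) (fun y hy _ => ?_)
          (fun y1 _ _ y2 _ _ h => add_left_cancel h) (fun z hz hne => ?_) (fun y _ _ => ?_)
        · exact Finset.add_mem_add hx hy
        · have h3 : z - x ∈ A := by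
            by_contra hcon
            exact hne (hp.supp _ hcon)
          exact ⟨z - x, h3, hne, by abel⟩
        · rw [add_sub_cancel_left]
      rw [h2, hp.sum_one, mul_one]
    rw [Finset.sum_congr rfl h1, hp.sum_one]

theorem mass_conv (A : Finset G) (p : G → ℝ) (s : ℕ) (z : G) :
    mass (Full.conv A p) s z = ∑ x ∈ A, p x * mass p s (z - x) := by
  change ∑ b ∈ box s, ∑ x ∈ A, p x * p (z - b - x) = ∑ x ∈ A, p x * ∑ b ∈ box s, p (z - x - b)
  rw [Finset.sum_comm]
  refine Finset.sum_congr rfl (fun x _ => ?_)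
  rw [Finset.mul_sum]
  refine Finset.sum_congr rfl (fun b _ => ?_)
  rw [sub_right_comm]

theorem mass_conv_ge (hp : Prb A p) (s : ℕ) (z : G) {x : G} (hx : x ∈ A) :
    p x * mass p s (z - x) ≤ mass (Full.conv A p) s z := by
  rw [mass_conv]
  exact Finset.single_le_sum (f := fun x' => p x' * mass p s (z - x'))
    (fun i _ => mul_nonneg (hp.nonneg i) (mass_nonneg hp s _)) hx

theorem sum_kap (p : G → ℝ) {s t : ℕ} (h : s ≤ t) {ζ : G} (hz : mass p t ζ ≠ 0) :
    ∑ u ∈ box (t - s), kap p s t ζ u = 1 := by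
  unfold kap
  rw [← Finset.sum_div, ← mass_split p h ζ, div_self hz]

theorem kap_nonneg (hp : Prb A p) (s t : ℕ) (ζ u : G) : 0 ≤ kap p s t ζ u := by
  unfold kap
  exact div_nonneg (mass_nonneg hp _ _) (mass_nonneg hp _ _)

theorem err_nonneg (A : Finset G) (p : G → ℝ) (s t : ℕ) (ζ x : G) : 0 ≤ err A p s t ζ x := by
  unfold err
  exact Finset.sum_nonneg (fun _ _ => abs_nonneg _)

theorem drop_add (A : Finset G) (p : G → ℝ) (s t r : ℕ) :
    drop A p s t + drop A p t r = drop A p s r := by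
  unfold drop
  ring

end Pool.Agent.Work.MP_0d53be_an.Full
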