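import Pool.Agent.Work.MP_0d53be_an.Full.E.Conv

/-!
# E/KLid: the pointwise identity

Write `P_s = mass p s`, `R_s = mass (conv A p) s`, `z_u = z - 2^s u`, `n(x) = negMulLog x
= - x log x`. For fixed `z`:
`[∑_u n(R_s(z_u)) - n(R_t(z))] - ∑_{x ∈ A} p x [∑_u n(P_s((z-x)_u)) - n(P_t(z-x))]
 = ∑_{x ∈ A} p x P_t(z-x) ∑_u κ_{z-x}(u) log (κ_{z-x}(u) / κ^R_z(u))`,
where `κ_{z-x}(u) = P_s((z-x)_u) / P_t(z-x) = kap p s t (z-x) u` and
`κ^R_z(u) = R_s(z_u)/R_t(z) = kap (conv A p) s t z u`.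

Proof. For `x ∈ A` and every `u` the summand `P_t(z-x) κ_{z-x}(u) log(κ_{z-x}(u)/κ^R_z(u))` equals
`P_s((z-x)_u) (log P_s((z-x)_u) - log P_t(z-x) - log R_s(z_u) + log R_t(z))`:
if `P_s((z-x)_u) = 0` both sides are `0`; otherwise `P_s((z-x)_u) > 0`, hence `P_t(z-x) > 0`
(`mass_split`: `P_t(z-x)` is the sum of the `P_s((z-x)_u)`), `R_s(z_u) ≥ p x P_s((z-x)_u) > 0`
(`mass_conv_ge`; note `z_u - x = (z-x)_u`), `R_t(z) ≥ p x P_t(z-x) > 0`, and `Real.log_div`.
Multiply by `p x` and sum over `u` and `x`: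
* `∑_x p x ∑_u P_s log P_s = - ∑_x p x ∑_u n(P_s((z-x)_u))`;
* `∑_x p x ∑_u P_s((z-x)_u) log P_t(z-x) = ∑_x p x P_t(z-x) log P_t(z-x)` (`mass_split`);
* `∑_u (∑_x p x P_s((z-x)_u)) log R_s(z_u) = ∑_u R_s(z_u) log R_s(z_u)` (`mass_conv`);
* `∑_x p x P_t(z-x) log R_t(z) = R_t(z) log R_t(z)`.
-/

set_option autoImplicit false

namespace Pool.Agent.Work.MP_0d53be_an.Full

open scoped Pointwise

variable {A : Finset G} {p : G → ℝ}

private theorem kl_num {ι κ : Type*} (A : Finset ι) (U : Finset κ) (p b : ι → ℝ) (a : ι → κ → ℝ) (c : κ → ℝ) (d : ℝ)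
    (hb : ∀ x ∈ A, b x = ∑ u ∈ U, a x u) (hc : ∀ u ∈ U, c u = ∑ x ∈ A, p x * a x u)
    (hd : d = ∑ x ∈ A, p x * b x) :
    (∑ u ∈ U, Real.negMulLog (c u) - Real.negMulLog d) -
      ∑ x ∈ A, p x * (∑ u ∈ U, Real.negMulLog (a x u) - Real.negMulLog (b x)) =
    ∑ x ∈ A, p x * ∑ u ∈ U, a x u * (Real.log (a x u) - Real.log (b x) - Real.log (c u) + Real.log d) := by
  have e1 : ∑ x ∈ A, p x * ∑ u ∈ U, a x u * (Real.log (a x u) - Real.log (b x) - Real.log (c u) + Real.log d) =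
      ∑ x ∈ A, p x * ∑ u ∈ U, a x u * Real.log (a x u) - ∑ x ∈ A, p x * (b x * Real.log (b x)) -
      ∑ u ∈ U, c u * Real.log (c u) + d * Real.log d := by
    have f1 : ∑ x ∈ A, p x * (b x * Real.log (b x)) = ∑ x ∈ A, p x * ∑ u ∈ U, a x u * Real.log (b x) := by
      refine Finset.sum_congr rfl fun x hx => ?_
      rw [← Finset.sum_mul, ← hb x hx]
    have f2 : ∑ u ∈ U, c u * Real.log (c u) = ∑ x ∈ A, p x * ∑ u ∈ U, a x u * Real.log (c u) := by
      simp_rw [Finset.mul_sum]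
      rw [Finset.sum_comm]
      refine Finset.sum_congr rfl fun u hu => ?_
      nth_rewrite 1 [hc u hu]
      rw [Finset.sum_mul]
      exact Finset.sum_congr rfl fun x _ => by ring
    have f3 : d * Real.log d = ∑ x ∈ A, p x * ∑ u ∈ U, a x u * Real.log d := by
      nth_rewrite 1 [hd]
      rw [Finset.sum_mul]
      refine Finset.sum_congr rfl fun x hx => ?_
      rw [← Finset.sum_mul, ← hb x hx]
      ring
    rw [f1, f2, f3, ← Finset.sum_sub_distrib, ← Finset.sum_sub_distrib, ← Finset.sum_add_distrib]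
    refine Finset.sum_congr rfl fun x _ => ?_
    rw [← mul_sub, ← mul_sub, ← mul_add, ← Finset.sum_sub_distrib, ← Finset.sum_sub_distrib,
      ← Finset.sum_add_distrib]
    congr 1
    exact Finset.sum_congr rfl fun u _ => by ring
  rw [e1]
  simp only [Real.negMulLog, mul_sub, Finset.sum_sub_distrib]
  have e2 : ∑ x ∈ A, p x * ∑ u ∈ U, -a x u * Real.log (a x u) = -∑ x ∈ A, p x * ∑ u ∈ U, a x u * Real.log (a x u) := by
    rw [← Finset.sum_neg_distrib]
    refine Finset.sum_congr rfl fun x _ => ?_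
    rw [← mul_neg, ← Finset.sum_neg_distrib]
    congr 1
    exact Finset.sum_congr rfl fun u _ => by ring
  have e3 : ∑ x ∈ A, p x * (-b x * Real.log (b x)) = -∑ x ∈ A, p x * (b x * Real.log (b x)) := by
    rw [← Finset.sum_neg_distrib]
    exact Finset.sum_congr rfl fun x _ => by ring
  have e4 : ∑ u ∈ U, -c u * Real.log (c u) = -∑ u ∈ U, c u * Real.log (c u) := by
    rw [← Finset.sum_neg_distrib]
    exact Finset.sum_congr rfl fun x _ => by ring
  rw [e2, e3, e4]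
  ring

private theorem kl_term {m M r R q : ℝ} (hm : 0 ≤ m) (hmM : m ≤ M) (hq : 0 < q) (hr : q * m ≤ r) (hR : q * M ≤ R) :
    M * (m / M * Real.log (m / M / (r / R))) = m * (Real.log m - Real.log M - Real.log r + Real.log R) := by
  rcases hm.eq_or_lt with h | h
  · rw [← h]
    simp
  · have hM : 0 < M := h.trans_le hmM
    have hr' : 0 < r := (mul_pos hq h).trans_le hr
    have hR' : 0 < R := (mul_pos hq hM).trans_le hR
    rw [Real.log_div (by positivity) (by positivity), Real.log_div h.ne' hM.ne', Real.log_div hr'.ne' hR'.ne']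
    field_simp
    ring

theorem kl_id (hp : Prb A p) {s t : ℕ} (h : s ≤ t) (z : G) :
    (∑ u ∈ box (t - s), Real.negMulLog (mass (conv A p) s (z - (2 : ℤ) ^ s • u)) -
        Real.negMulLog (mass (conv A p) t z)) -
      ∑ x ∈ A, p x * (∑ u ∈ box (t - s), Real.negMulLog (mass p s (z - x - (2 : ℤ) ^ s • u)) -
        Real.negMulLog (mass p t (z - x))) =
    ∑ x ∈ A, p x * (mass p t (z - x) * ∑ u ∈ box (t - s), kap p s t (z - x) u *
      Real.log (kap p s t (z - x) u / kap (conv A p) s t z u)) := by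
  have hb : ∀ x ∈ A, mass p t (z - x) = ∑ u ∈ box (t - s), mass p s (z - x - (2 : ℤ) ^ s • u) :=
    fun x _ => mass_split p h (z - x)
  have hc : ∀ u ∈ box (t - s), mass (conv A p) s (z - (2 : ℤ) ^ s • u) =
      ∑ x ∈ A, p x * mass p s (z - x - (2 : ℤ) ^ s • u) := by
    intro u _
    rw [mass_conv]
    refine Finset.sum_congr rfl fun x _ => ?_
    rw [sub_right_comm]
  rw [kl_num A (box (t - s)) p (fun x => mass p t (z - x)) (fun x u => mass p s (z - x - (2 : ℤ) ^ s • u))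
    (fun u => mass (conv A p) s (z - (2 : ℤ) ^ s • u)) (mass (conv A p) t z) hb hc (mass_conv A p t z)]
  refine Finset.sum_congr rfl fun x hx => ?_
  congr 1
  rw [Finset.mul_sum]
  refine Finset.sum_congr rfl fun u hu => ?_
  unfold kap
  rw [kl_term (mass_nonneg hp s _) ?_ (hp.pos x hx) ?_ (mass_conv_ge hp t z hx)]
  · rw [hb x hx]
    exact Finset.single_le_sum (f := fun u => mass p s (z - x - (2 : ℤ) ^ s • u)) (fun v _ => mass_nonneg hp s _) hu
  · have := mass_conv_ge hp s (z - (2 : ℤ) ^ s • u) hx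
    rwa [sub_right_comm] at this

end Pool.Agent.Work.MP_0d53be_an.Full
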