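import Mathlib

/-!
# E/Pinsker: Pinsker's inequality for finite sums

Let `a, b ≥ 0` on a finite set `U`, `∑ a = ∑ b = 1`, and `b u = 0 → a u = 0`. Then
`(∑ |a - b|)² / 2 ≤ ∑ a log (a / b)`.

Proof. (1) For `x ≥ 0`: `x log x - x + 1 ≥ (3/2) (x - 1)² / (x + 2)`. (At `x = 0` it says
`1 ≥ 3/4`. For `x > 0` put `f x = x log x - x + 1 - (3/2) (x-1)²/(x+2)`. Then `f 1 = 0`, and
`f' x = log x - (3/2) (x-1)(x+5)/(x+2)²`, `f' 1 = 0`,
`f'' x = 1/x - 27/(x+2)³ ≥ 0` because `(x+2)³ ≥ 27 x` (AM-GM: `x + 1 + 1 ≥ 3 x^(1/3)`; or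
`(x+2)³ - 27 x = (x-1)² (x+8)`). So `f` is convex with minimum `0` at `1`. Another way: prove
`log x ≥ (3/2) (x-1)²/(x (x+2)) + 1 - 1/x` by monotonicity on `(0,1]` and `[1,∞)`:
the derivative of the difference `log x - 1 + 1/x - (3/2)(x-1)²/(x(x+2))` is
`(x-1)³ (x + ...)`-like; take the route that is easiest.)
(2) For `b > 0` put `x = a / b`, multiply by `b`: `a log (a/b) - a + b ≥ (3/2) (a-b)²/(a + 2 b)`.
For `b = 0` (then `a = 0`) both sides are `0`.
(3) Sum: `∑ a log (a/b) ≥ (3/2) ∑ (a-b)²/(a+2b)`, and by Cauchy-Schwarz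
`(∑ |a-b|)² ≤ (∑ (a-b)²/(a+2b)) (∑ (a + 2b)) = 3 ∑ (a-b)²/(a+2b)` (terms with `a + 2b = 0`
vanish; `Finset.sum_div_sq_le...` / `inner_mul_le_norm_mul_norm` / `Finset.sum_mul_sq_le_sq_mul_sq`).
So `∑ a log(a/b) ≥ (1/2) (∑|a-b|)²`.
-/

set_option autoImplicit false

namespace Pool.Agent.Work.MP_0d53be_an.Full

private noncomputable def gp (x : ℝ) : ℝ := Real.log x - 1 + x⁻¹ - 3 / 2 * ((x - 1) ^ 2 / (x * (x + 2)))

private theorem gp_deriv {x : ℝ} (hx : 0 < x) :
    HasDerivAt gp ((x - 1) ^ 3 / (x ^ 2 * (x + 2) ^ 2)) x := by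
  have h1 : HasDerivAt (fun x : ℝ => Real.log x - 1) (x⁻¹) x := (Real.hasDerivAt_log hx.ne').sub_const 1
  have h2 : HasDerivAt (fun x : ℝ => x⁻¹) (-(x ^ 2)⁻¹) x := hasDerivAt_inv hx.ne'
  have h3 : HasDerivAt (fun x : ℝ => (x - 1) ^ 2) (2 * (x - 1)) x := by
    have := ((hasDerivAt_id' x).sub_const 1).fun_pow 2
    simpa using this
  have h4 : HasDerivAt (fun x : ℝ => x * (x + 2)) (2 * x + 2) x := by
    have := (hasDerivAt_id x).mul ((hasDerivAt_id x).add_const 2)
    refine this.congr_deriv ?_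
    simp only [id]
    ring
  have h5 := h3.div h4 (by positivity)
  have h6 := (h1.add h2).sub (h5.const_mul (3 / 2))
  refine (h6.congr_deriv ?_)
  field_simp
  ring

private theorem gp_nonneg {x : ℝ} (hx : 0 < x) : 0 ≤ gp x := by
  have h1 : gp 1 = 0 := by
    unfold gp
    norm_num
  rcases le_total x 1 with h | h
  · have hanti : AntitoneOn gp (Set.Icc x 1) := by
      refine antitoneOn_of_deriv_nonpos (convex_Icc x 1) ?_ ?_ ?_
      · exact fun y hy => (gp_deriv (hx.trans_le hy.1)).continuousAt.continuousWithinAt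
      · intro y hy
        rw [interior_Icc] at hy
        exact (gp_deriv (hx.trans hy.1)).differentiableAt.differentiableWithinAt
      · intro y hy
        rw [interior_Icc] at hy
        rw [(gp_deriv (hx.trans hy.1)).deriv]
        refine div_nonpos_of_nonpos_of_nonneg ?_ (by positivity)
        have : y - 1 ≤ 0 := by linarith [hy.2]
        exact Odd.pow_nonpos (by decide) this
    rw [← h1]
    exact hanti (Set.left_mem_Icc.mpr h) (Set.right_mem_Icc.mpr h) h
  · have hmono : MonotoneOn gp (Set.Icc 1 x) := by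
      refine monotoneOn_of_deriv_nonneg (convex_Icc 1 x) ?_ ?_ ?_
      · exact fun y hy => (gp_deriv (one_pos.trans_le hy.1)).continuousAt.continuousWithinAt
      · intro y hy
        rw [interior_Icc] at hy
        exact (gp_deriv (one_pos.trans hy.1)).differentiableAt.differentiableWithinAt
      · intro y hy
        rw [interior_Icc] at hy
        rw [(gp_deriv (one_pos.trans hy.1)).deriv]
        have : 0 ≤ y - 1 := by linarith [hy.1]
        have hy0 : 0 < y := one_pos.trans hy.1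
        positivity
    rw [← h1]
    exact hmono (Set.left_mem_Icc.mpr h) (Set.right_mem_Icc.mpr h) h

private theorem pin_pt {a b : ℝ} (ha : 0 ≤ a) (hb : 0 ≤ b) (h0 : b = 0 → a = 0) :
    a - b + 3 / 2 * ((a - b) ^ 2 / (a + 2 * b)) ≤ a * Real.log (a / b) := by
  rcases hb.eq_or_lt with h | h
  · have : a = 0 := h0 h.symm
    subst this
    rw [← h]
    simp
  · rcases ha.eq_or_lt with h' | h'
    · rw [← h']
      have : (0 - b) ^ 2 / (0 + 2 * b) = b / 2 := by
        field_simp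
        ring
      rw [this]
      simp only [zero_mul]
      linarith
    · have h1 := gp_nonneg (div_pos h' h)
      unfold gp at h1
      have h2 : (a / b)⁻¹ = b / a := inv_div a b
      have h3 : (a / b - 1) ^ 2 / (a / b * (a / b + 2)) = (a - b) ^ 2 / (a * (a + 2 * b)) := by
        field_simp
      rw [h2, h3] at h1
      have h4 : 0 ≤ a * (Real.log (a / b) - 1 + b / a - 3 / 2 * ((a - b) ^ 2 / (a * (a + 2 * b)))) :=
        mul_nonneg h'.le h1
      have h5 : a * (Real.log (a / b) - 1 + b / a - 3 / 2 * ((a - b) ^ 2 / (a * (a + 2 * b)))) =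
          a * Real.log (a / b) - (a - b + 3 / 2 * ((a - b) ^ 2 / (a + 2 * b))) := by
        field_simp
        ring
      linarith

theorem pinsker {ι : Type*} (U : Finset ι) (a b : ι → ℝ) (ha : ∀ u ∈ U, 0 ≤ a u)
    (hb : ∀ u ∈ U, 0 ≤ b u) (h0 : ∀ u ∈ U, b u = 0 → a u = 0) (sa : ∑ u ∈ U, a u = 1)
    (sb : ∑ u ∈ U, b u = 1) :
    (∑ u ∈ U, |a u - b u|) ^ 2 / 2 ≤ ∑ u ∈ U, a u * Real.log (a u / b u) := by
  have h1 : ∑ u ∈ U, (a u - b u + 3 / 2 * ((a u - b u) ^ 2 / (a u + 2 * b u))) ≤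
      ∑ u ∈ U, a u * Real.log (a u / b u) :=
    Finset.sum_le_sum fun u hu => pin_pt (ha u hu) (hb u hu) (h0 u hu)
  have h2 : ∑ u ∈ U, (a u - b u + 3 / 2 * ((a u - b u) ^ 2 / (a u + 2 * b u))) =
      3 / 2 * ∑ u ∈ U, (a u - b u) ^ 2 / (a u + 2 * b u) := by
    rw [Finset.sum_add_distrib, Finset.sum_sub_distrib, sa, sb, ← Finset.mul_sum]
    ring
  have h3 : (∑ u ∈ U, |a u - b u|) ^ 2 ≤
      (∑ u ∈ U, (a u - b u) ^ 2 / (a u + 2 * b u)) * ∑ u ∈ U, (a u + 2 * b u) := by
    refine Finset.sum_sq_le_sum_mul_sum_of_sq_le_mul U (fun u hu => ?_) (fun u hu => ?_) (fun u hu => ?_)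
    · have := ha u hu
      have := hb u hu
      positivity
    · have := ha u hu
      have := hb u hu
      positivity
    · rw [sq_abs]
      rcases (add_nonneg (ha u hu) (mul_nonneg zero_le_two (hb u hu))).eq_or_lt with h | h
      · have hb0 : b u = 0 := by linarith [ha u hu, hb u hu]
        have ha0 : a u = 0 := h0 u hu hb0
        rw [ha0, hb0]
        simp
      · rw [div_mul_cancel₀ _ h.ne']
  have h4 : ∑ u ∈ U, (a u + 2 * b u) = 3 := by
    rw [Finset.sum_add_distrib, ← Finset.mul_sum, sa, sb]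
    norm_num
  rw [h4] at h3
  rw [h2] at h1
  linarith

end Pool.Agent.Work.MP_0d53be_an.Full
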