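import Pool.Agent.Work.MP_0d53be_an.Full.E.HDiff
import Pool.Agent.Work.MP_0d53be_an.Full.E.Pinsker
import Pool.Agent.Work.MP_0d53be_an.Full.E.KLid

/-!
# E/Drop: the drop controls the distance of the profiles

By `hh_diff` for `conv A p` (`Prb.conv`) and for `p`,
`4^t drop A p s t = ∑' z, Φ(z) - ∑' z, Ψ(z)` with
`Φ(z) = ∑_u n(R_s(z_u)) - n(R_t(z))`, `Ψ(z) = ∑_u n(P_s(z_u)) - n(P_t(z))` (`n = negMulLog`), both
with finite support. By translation invariance and `∑_{x∈A} p x = 1`,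
`∑' z, Ψ(z) = ∑' z, ∑_{x∈A} p x Ψ(z - x)`. So by `kl_id`
`4^t drop = ∑' z, ∑_{x∈A} p x P_t(z-x) KL(z, x)`, with
`KL(z,x) = ∑_u κ_{z-x}(u) log (κ_{z-x}(u)/κ^R_z(u))`.
If `P_t(z-x) ≠ 0` and `x ∈ A`: both profiles are nonnegative, sum to one (`sum_kap`;
`R_t(z) ≥ p x P_t(z-x) > 0`), and `κ^R_z(u) = 0` implies `R_s(z_u) = 0`, so
`P_s((z-x)_u) = 0` (`mass_conv_ge`), `κ_{z-x}(u) = 0`. By `pinsker`,
`KL(z,x) ≥ err(z-x, x)²/2` (note `(z - x) + x = z`). If `P_t(z-x) = 0` the term is zero.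
Hence `4^t drop ≥ ∑' z, ∑_{x∈A} p x P_t(z-x) err(z-x,x)²/2`, and the substitution `ζ = z - x` for
each `x ∈ A` (exchange the finite sum with `∑'`, translate, exchange back; all supports are
finite since `P_t` has finite support) gives the claim.

`drop_nonneg` follows. `err_avg`: Cauchy-Schwarz with weights `w(ζ,x) = P_t(ζ) p x` (`x ∈ A`),
total weight `∑' ζ, ∑_x = 4^t`: `(∑ w err)² ≤ (∑ w)(∑ w err²) ≤ 4^t * (2 * 4^t * drop)`,
so `∑ w err ≤ 4^t √(2 h^16) = √2 h^8 4^t ≤ (3/2) h^8 4^t`. (Work with finite sums over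
`ζ ∈ A + box t`.)
-/

set_option autoImplicit false

namespace Pool.Agent.Work.MP_0d53be_an.Full

open scoped Pointwise

variable {A : Finset G} {p : G → ℝ}

private theorem smb (hp : Prb A p) (s : ℕ) (c : G) : Summable (fun z : G => Real.negMulLog (mass p s (z - c))) := by
  have h1 : Summable (fun z : G => Real.negMulLog (mass p s z)) := by
    refine summable_of_finite_support ((mass_fin hp s).subset fun z hz => ?_)
    rw [Function.mem_support] at hz ⊢
    intro h0
    exact hz (by rw [h0, Real.negMulLog_zero])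
  exact (Equiv.subRight c).summable_iff.mpr h1

private theorem smbPsi (hp : Prb A p) (s t : ℕ) : Summable (fun z : G =>
    (∑ u ∈ box (t - s), Real.negMulLog (mass p s (z - (2 : ℤ) ^ s • u)) - Real.negMulLog (mass p t z))) := by
  refine (summable_sum fun u _ => smb hp s _).sub ?_
  have := smb hp t 0
  simpa using this

private theorem kl_ge (hp : Prb A p) {s t : ℕ} (h : s ≤ t) (z : G) {x : G} (hx : x ∈ A) :
    mass p t (z - x) * p x * err A p s t (z - x) x ^ 2 / 2 ≤
      p x * (mass p t (z - x) * ∑ u ∈ box (t - s), kap p s t (z - x) u *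
      Real.log (kap p s t (z - x) u / kap (conv A p) s t z u)) := by
  rcases (mass_nonneg hp t (z - x)).eq_or_lt with h0 | h0
  · rw [← h0]
    simp
  · have hR : 0 < mass (conv A p) t z := (mul_pos (hp.pos x hx) h0).trans_le (mass_conv_ge hp t z hx)
    have hpin := pinsker (box (t - s)) (fun u => kap p s t (z - x) u) (fun u => kap (conv A p) s t z u)
      (fun u _ => kap_nonneg hp s t _ u) (fun u _ => kap_nonneg hp.conv s t _ u) (fun u _ hb => ?_)
      (sum_kap p h h0.ne') (sum_kap (conv A p) h hR.ne')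
    · have he : err A p s t (z - x) x = ∑ u ∈ box (t - s), |kap p s t (z - x) u - kap (conv A p) s t z u| := by
        unfold err
        rw [sub_add_cancel]
      rw [← he] at hpin
      have h1 := mul_le_mul_of_nonneg_left hpin (mul_pos (hp.pos x hx) h0).le
      calc mass p t (z - x) * p x * err A p s t (z - x) x ^ 2 / 2
          = p x * mass p t (z - x) * (err A p s t (z - x) x ^ 2 / 2) := by ring
        _ ≤ _ := h1
        _ = _ := by rw [mul_assoc]
    · have hb' : mass (conv A p) s (z - (2 : ℤ) ^ s • u) / mass (conv A p) t z = 0 := hb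
      rw [div_eq_zero_iff] at hb'
      rcases hb' with hb' | hb'
      · have h2 := mass_conv_ge hp s (z - (2 : ℤ) ^ s • u) hx
        rw [hb'] at h2
        have h3 : mass p s (z - (2 : ℤ) ^ s • u - x) ≤ 0 := by
          by_contra hcon
          push Not at hcon
          have := mul_pos (hp.pos x hx) hcon
          linarith
        have h4 : mass p s (z - (2 : ℤ) ^ s • u - x) = 0 := le_antisymm h3 (mass_nonneg hp s _)
        change mass p s (z - x - (2 : ℤ) ^ s • u) / mass p t (z - x) = 0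
        rw [sub_right_comm, h4, zero_div]
      · exact absurd hb' hR.ne'

private theorem smbG (hp : Prb A p) (s t : ℕ) (x c : G) (f : G → ℝ) :
    Summable (fun z : G => mass p t (z - c) * p x * f (z - c)) := by
  have h1 : Summable (fun z : G => mass p t z * p x * f z) := by
    refine summable_of_finite_support ((mass_fin hp t).subset fun z hz => ?_)
    rw [Function.mem_support] at hz ⊢
    intro h0
    exact hz (by rw [h0, zero_mul, zero_mul])
  exact (Equiv.subRight c).summable_iff.mpr h1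

theorem drop_ge (hp : Prb A p) {s t : ℕ} (h : s ≤ t) :
    (∑' ζ, ∑ x ∈ A, mass p t ζ * p x * err A p s t ζ x ^ 2) / (2 * 4 ^ t) ≤ drop A p s t := by
  set Φ : G → ℝ := fun z => ∑ u ∈ box (t - s), Real.negMulLog (mass (conv A p) s (z - (2 : ℤ) ^ s • u)) -
    Real.negMulLog (mass (conv A p) t z) with hΦ
  set Ψ : G → ℝ := fun z => ∑ u ∈ box (t - s), Real.negMulLog (mass p s (z - (2 : ℤ) ^ s • u)) -
    Real.negMulLog (mass p t z) with hΨ
  have sΦ : Summable Φ := smbPsi hp.conv s t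
  have sΨ : Summable Ψ := smbPsi hp s t
  have sΨx : ∀ x : G, Summable (fun z => Ψ (z - x)) := fun x => (Equiv.subRight x).summable_iff.mpr sΨ
  have tΨx : ∀ x : G, ∑' z, Ψ (z - x) = ∑' z, Ψ z := fun x => (Equiv.subRight x).tsum_eq Ψ
  have hd : drop A p s t = ((∑' z, Φ z) - ∑' z, Ψ z) / 4 ^ t := by
    unfold drop
    rw [hh_diff hp h, hh_diff hp.conv h, sub_div]
  have h1 : ∑' z, Ψ z = ∑' z, ∑ x ∈ A, p x * Ψ (z - x) := by
    rw [Summable.tsum_finsetSum fun x _ => (sΨx x).mul_left _]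
    simp_rw [tsum_mul_left, tΨx]
    rw [← Finset.sum_mul, hp.sum_one, one_mul]
  have h2 : (∑' z, Φ z) - ∑' z, Ψ z = ∑' z, (Φ z - ∑ x ∈ A, p x * Ψ (z - x)) := by
    rw [h1, ← sΦ.tsum_sub (summable_sum fun x _ => (sΨx x).mul_left _)]
  have h3 : ∀ z, Φ z - ∑ x ∈ A, p x * Ψ (z - x) =
      ∑ x ∈ A, p x * (mass p t (z - x) * ∑ u ∈ box (t - s), kap p s t (z - x) u *
      Real.log (kap p s t (z - x) u / kap (conv A p) s t z u)) := fun z => kl_id hp h z
  have h4 : ∀ z, ∑ x ∈ A, mass p t (z - x) * p x * err A p s t (z - x) x ^ 2 / 2 ≤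
      Φ z - ∑ x ∈ A, p x * Ψ (z - x) := fun z => by
    rw [h3]
    exact Finset.sum_le_sum fun x hx => kl_ge hp h z hx
  have sg : ∀ x c : G, Summable (fun z : G => mass p t (z - c) * p x * err A p s t (z - c) x ^ 2) := fun x c =>
    smbG hp s t x c (fun z => err A p s t z x ^ 2)
  have h5 : ∑' z, ∑ x ∈ A, mass p t (z - x) * p x * err A p s t (z - x) x ^ 2 / 2 ≤
      ∑' z, (Φ z - ∑ x ∈ A, p x * Ψ (z - x)) := by
    refine Summable.tsum_le_tsum h4 ?_ ?_
    · exact summable_sum fun x _ => (sg x x).div_const 2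
    · exact sΦ.sub (summable_sum fun x _ => (sΨx x).mul_left _)
  have h6 : ∑' z, ∑ x ∈ A, mass p t (z - x) * p x * err A p s t (z - x) x ^ 2 / 2 =
      (∑' ζ, ∑ x ∈ A, mass p t ζ * p x * err A p s t ζ x ^ 2) / 2 := by
    have sg0 : ∀ x : G, Summable (fun z : G => mass p t z * p x * err A p s t z x ^ 2) := fun x => by
      simpa using sg x 0
    rw [Summable.tsum_finsetSum fun x _ => (sg x x).div_const 2, Summable.tsum_finsetSum fun x _ => sg0 x,
      Finset.sum_div]
    refine Finset.sum_congr rfl fun x _ => ?_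
    rw [tsum_div_const]
    congr 1
    exact (Equiv.subRight x).tsum_eq (fun z : G => mass p t z * p x * err A p s t z x ^ 2)
  rw [hd, h2, div_le_div_iff₀ (by positivity) (by positivity)]
  rw [h6] at h5
  have h7 : (0 : ℝ) < 4 ^ t := by positivity
  nlinarith

theorem drop_nonneg (hp : Prb A p) {s t : ℕ} (h : s ≤ t) : 0 ≤ drop A p s t := by
  refine le_trans ?_ (drop_ge hp h)
  refine div_nonneg (tsum_nonneg fun ζ => Finset.sum_nonneg fun x hx => ?_) (by positivity)
  have h1 := mass_nonneg hp t ζ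
  have h2 := hp.pos x hx
  positivity

theorem err_avg (hp : Prb A p) {s t : ℕ} (h : s ≤ t) {η : ℝ} (hη : 0 < η)
    (hd : drop A p s t ≤ η ^ 16) :
    ∑' ζ, ∑ x ∈ A, mass p t ζ * p x * err A p s t ζ x ≤ 3 / 2 * η ^ 8 * 4 ^ t := by
  set S : Finset G := (mass_fin hp t).toFinset with hS
  have hoff : ∀ (f : G → G → ℝ), ∑' ζ, ∑ x ∈ A, mass p t ζ * p x * f ζ x =
      ∑ q ∈ S ×ˢ A, mass p t q.1 * p q.2 * f q.1 q.2 := by
    intro f
    rw [tsum_eq_sum (s := S), Finset.sum_product]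
    intro ζ hζ
    have h0 : mass p t ζ = 0 := by
      by_contra hne
      exact hζ (by rw [hS, Set.Finite.mem_toFinset]; exact hne)
    exact Finset.sum_eq_zero fun x _ => by rw [h0, zero_mul, zero_mul]
  have hw : ∑ q ∈ S ×ˢ A, mass p t q.1 * p q.2 = 4 ^ t := by
    have h1 := hoff (fun _ _ => 1)
    simp only [mul_one] at h1
    rw [← h1, ← tsum_mass hp t]
    refine tsum_congr fun ζ => ?_
    rw [← Finset.mul_sum, hp.sum_one, mul_one]
  have hw0 : ∀ q ∈ S ×ˢ A, 0 ≤ mass p t q.1 * p q.2 := by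
    intro q _
    exact mul_nonneg (mass_nonneg hp t _) (hp.nonneg _)
  have hcs : (∑ q ∈ S ×ˢ A, mass p t q.1 * p q.2 * err A p s t q.1 q.2) ^ 2 ≤
      (∑ q ∈ S ×ˢ A, mass p t q.1 * p q.2) * ∑ q ∈ S ×ˢ A, mass p t q.1 * p q.2 * err A p s t q.1 q.2 ^ 2 := by
    refine Finset.sum_sq_le_sum_mul_sum_of_sq_le_mul _ hw0 (fun q hq => mul_nonneg (hw0 q hq) (sq_nonneg _))
      fun q _ => le_of_eq ?_
    ring
  have hge := drop_ge hp h
  rw [hoff (fun ζ x => err A p s t ζ x ^ 2), div_le_iff₀ (by positivity)] at hge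
  rw [hoff (fun ζ x => err A p s t ζ x)]
  rw [hw] at hcs
  have h4 : (0 : ℝ) < 4 ^ t := by positivity
  have hη8 : 0 < η ^ 8 := by positivity
  refine abs_le_of_sq_le_sq' ?_ (by positivity) |>.2
  have e1 : drop A p s t * (2 * 4 ^ t) ≤ η ^ 16 * (2 * 4 ^ t) := mul_le_mul_of_nonneg_right hd (by positivity)
  have e2 : (4 : ℝ) ^ t * ∑ q ∈ S ×ˢ A, mass p t q.1 * p q.2 * err A p s t q.1 q.2 ^ 2 ≤
      4 ^ t * (η ^ 16 * (2 * 4 ^ t)) := mul_le_mul_of_nonneg_left (hge.trans e1) h4.le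
  have e3 : (3 / 2 * η ^ 8 * 4 ^ t) ^ 2 = 9 / 4 * (4 ^ t * (η ^ 16 * 4 ^ t)) := by ring
  have e4 : (0 : ℝ) ≤ 4 ^ t * (η ^ 16 * 4 ^ t) := by positivity
  rw [e3]
  linarith

end Pool.Agent.Work.MP_0d53be_an.Full
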