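import Pool.Agent.Work.MP_0d53be_an.Full.E.Split

/-!
# E/HDiff: the difference of two smoothed entropies

`hh p s = (∑' z, negMulLog (mass p s z)) / 4^s`. By `tsum_cells` for
`F = negMulLog ∘ mass p s` (finite support, since `negMulLog 0 = 0` and `mass_fin`) with
`r = t - s`: `∑' z, negMulLog (mass p s z) = (∑' z, ∑_{u ∈ box (t-s)} F (z - 2^s u)) / 4^(t-s)`,
so `hh p s = (∑' z, ∑_u F (z - 2^s u)) / 4^t`. Subtract `hh p t` and join the two `∑'`
(both summable: finite support).

`hh_diff_nonneg` and `hh_diff_le`: for each `z`, with `a_u = mass p s (z - 2^s u) ≥ 0` and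
`M = mass p t z = ∑_u a_u` (`mass_split`), the number
`∑_u negMulLog a_u - negMulLog M = ∑_u a_u (log M - log a_u)` (terms with `a_u = 0` vanish) is
`≥ 0` because `a_u ≤ M`, and `≤ M log (card) = M * 2 (t - s) log 2` by concavity of `negMulLog`
(Jensen: `(1/n) ∑ negMulLog a_u ≤ negMulLog (M / n)`, `n = 4^(t-s)`; `Real.concaveOn_negMulLog`,
`ConcaveOn.le_map_sum`) . Sum over `z` and use `tsum_mass`.

`hh_nonneg`: `negMulLog x ≥ 0` for `0 ≤ x ≤ 1`.
`hh_zero`: `mass p 0 z = p z` and `p = 0` off `A`.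
`hh_zero_le`: Jensen again (`p` sums to one on `A`; `A` is nonempty).
`hh_unif`: if all `p z`, `z ∈ A`, are equal to `1 / card A`, then `hh p 0 = log (card A)`.
`hh_top`: if `A` lies in a translate of `box t`, then the `z` with `mass p t z ≠ 0` lie in a
translate of `{0, …, 2·2^t - 2}²`, at most `4 * 4^t` points, and `negMulLog x ≤ 1 - x ≤ 1` there.
-/

set_option autoImplicit false

namespace Pool.Agent.Work.MP_0d53be_an.Full

open scoped Pointwise

variable {A : Finset G} {p : G → ℝ}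

private theorem sub_aux {ι : Type*} (S : Finset ι) (a : ι → ℝ) (h0 : ∀ u ∈ S, 0 ≤ a u) :
    Real.negMulLog (∑ u ∈ S, a u) ≤ ∑ u ∈ S, Real.negMulLog (a u) := by
  have h1 : Real.negMulLog (∑ u ∈ S, a u) = ∑ u ∈ S, -(a u * Real.log (∑ u ∈ S, a u)) := by
    rw [Finset.sum_neg_distrib, ← Finset.sum_mul]
    simp only [Real.negMulLog]
    ring
  rw [h1]
  refine Finset.sum_le_sum fun u hu => ?_
  rcases (h0 u hu).lt_or_eq with h2 | h2
  · have h3 : a u ≤ ∑ u ∈ S, a u := Finset.single_le_sum h0 hu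
    have h4 := Real.log_le_log h2 h3
    simp only [Real.negMulLog]
    nlinarith
  · rw [← h2]
    simp

private theorem up_aux {ι : Type*} (S : Finset ι) (hS : S.Nonempty) (a : ι → ℝ)
    (h0 : ∀ u ∈ S, 0 ≤ a u) :
    ∑ u ∈ S, Real.negMulLog (a u) ≤
      Real.negMulLog (∑ u ∈ S, a u) + (∑ u ∈ S, a u) * Real.log S.card := by
  have hn : (0 : ℝ) < S.card := by
    exact_mod_cast hS.card_pos
  have h1 := Real.concaveOn_negMulLog.le_map_sum (t := S) (w := fun _ => (S.card : ℝ)⁻¹) (p := a)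
    (fun _ _ => by positivity) (by
      rw [Finset.sum_const, nsmul_eq_mul]
      exact mul_inv_cancel₀ hn.ne') (fun u hu => Set.mem_Ici.2 (h0 u hu))
  simp only [smul_eq_mul] at h1
  rw [← Finset.mul_sum, ← Finset.mul_sum, mul_comm (S.card : ℝ)⁻¹ (∑ u ∈ S, a u),
    Real.negMulLog_mul] at h1
  have h2 : Real.negMulLog ((S.card : ℝ)⁻¹) = (S.card : ℝ)⁻¹ * Real.log S.card := by
    simp only [Real.negMulLog, Real.log_inv]
    ring
  rw [h2] at h1
  have h3 := mul_le_mul_of_nonneg_left h1 hn.le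
  have h4 : (S.card : ℝ) * ((S.card : ℝ)⁻¹ * ∑ u ∈ S, Real.negMulLog (a u)) =
      ∑ u ∈ S, Real.negMulLog (a u) := by
    rw [← mul_assoc, mul_inv_cancel₀ hn.ne', one_mul]
  have h5 : (S.card : ℝ) * ((S.card : ℝ)⁻¹ * Real.negMulLog (∑ u ∈ S, a u) +
      (∑ u ∈ S, a u) * ((S.card : ℝ)⁻¹ * Real.log S.card)) =
      Real.negMulLog (∑ u ∈ S, a u) + (∑ u ∈ S, a u) * Real.log S.card := by
    field_simp
  rw [h4, h5] at h3
  exact h3

private theorem eta_fin (hp : Prb A p) (s : ℕ) :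
    (Function.support fun z => Real.negMulLog (mass p s z)).Finite := by
  refine (mass_fin hp s).subset fun z hz => ?_
  rw [Function.mem_support] at hz ⊢
  intro h
  apply hz
  rw [h, Real.negMulLog_zero]

private theorem summ_of_fin {F : G → ℝ} (hF : (Function.support F).Finite) : Summable F := by
  refine summable_of_ne_finset_zero (s := hF.toFinset) fun z hz => ?_
  by_contra h
  exact hz (hF.mem_toFinset.2 (Function.mem_support.2 h))

private theorem summ_cells {F : G → ℝ} (hF : (Function.support F).Finite) (s r : ℕ) :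
    Summable fun z => ∑ u ∈ box r, F (z - (2 : ℤ) ^ s • u) :=
  summable_sum fun u _ => (summ_of_fin hF).comp_injective (sub_left_injective (b := (2 : ℤ) ^ s • u))

private theorem cellsum (p : G → ℝ) {s t : ℕ} (h : s ≤ t) (z : G) :
    mass p t z = ∑ u ∈ box (t - s), mass p s (z - (2 : ℤ) ^ s • u) := mass_split p h z

private theorem box_nonempty (r : ℕ) : (box r).Nonempty := by
  rw [← Finset.card_pos, card_box]
  positivity

theorem hh_diff (hp : Prb A p) {s t : ℕ} (h : s ≤ t) :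
    hh p s - hh p t = (∑' z, (∑ u ∈ box (t - s), Real.negMulLog (mass p s (z - (2 : ℤ) ^ s • u)) -
      Real.negMulLog (mass p t z))) / 4 ^ t := by
  have h1 := tsum_cells (eta_fin hp s) s (t - s)
  have h2 : (4 : ℝ) ^ t = 4 ^ s * 4 ^ (t - s) := by
    rw [← pow_add]
    congr 1
    omega
  have h3 : hh p s = (∑' z, ∑ u ∈ box (t - s), Real.negMulLog (mass p s (z - (2 : ℤ) ^ s • u))) /
      4 ^ t := by
    unfold hh
    rw [h1, h2]
    field_simp
  rw [h3]
  unfold hh
  rw [← sub_div, (summ_cells (eta_fin hp s) s (t - s)).tsum_sub (summ_of_fin (eta_fin hp t))]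

theorem hh_diff_nonneg (hp : Prb A p) {s t : ℕ} (h : s ≤ t) : 0 ≤ hh p s - hh p t := by
  rw [hh_diff hp h]
  refine div_nonneg (tsum_nonneg fun z => ?_) (by positivity)
  rw [sub_nonneg, mass_split p h z]
  exact sub_aux _ _ fun u _ => mass_nonneg hp s _

theorem hh_diff_le (hp : Prb A p) {s t : ℕ} (h : s ≤ t) :
    hh p s - hh p t ≤ 2 * (t - s : ℕ) * Real.log 2 := by
  rw [hh_diff hp h, div_le_iff₀ (by positivity)]
  have h1 : ∀ z, ∑ u ∈ box (t - s), Real.negMulLog (mass p s (z - (2 : ℤ) ^ s • u)) -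
      Real.negMulLog (mass p t z) ≤ mass p t z * Real.log ((4 ^ (t - s) : ℕ) : ℝ) := by
    intro z
    have h2 := up_aux (box (t - s)) (box_nonempty _) (fun u => mass p s (z - (2 : ℤ) ^ s • u))
      (fun u _ => mass_nonneg hp s _)
    rw [card_box, ← mass_split p h z] at h2
    linarith
  have h3 : Summable fun z => mass p t z * Real.log ((4 ^ (t - s) : ℕ) : ℝ) :=
    (summ_of_fin (mass_fin hp t)).mul_right _
  have h4 : Summable fun z => ∑ u ∈ box (t - s), Real.negMulLog (mass p s (z - (2 : ℤ) ^ s • u)) -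
      Real.negMulLog (mass p t z) :=
    (summ_cells (eta_fin hp s) s (t - s)).sub (summ_of_fin (eta_fin hp t))
  refine (h4.tsum_le_tsum h1 h3).trans (le_of_eq ?_)
  rw [tsum_mul_right, tsum_mass hp t]
  have h5 : Real.log ((4 ^ (t - s) : ℕ) : ℝ) = (t - s : ℕ) * (2 * Real.log 2) := by
    rw [Nat.cast_pow, Real.log_pow]
    congr 1
    rw [show ((4 : ℕ) : ℝ) = 2 ^ 2 by norm_num, Real.log_pow]
    norm_num
  rw [h5]
  ring

theorem hh_nonneg (hp : Prb A p) (s : ℕ) : 0 ≤ hh p s := by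
  unfold hh
  exact div_nonneg (tsum_nonneg fun z => Real.negMulLog_nonneg (mass_nonneg hp s z)
    (mass_le_one hp s z)) (by positivity)

theorem hh_zero (hp : Prb A p) : hh p 0 = ∑ z ∈ A, Real.negMulLog (p z) := by
  unfold hh
  rw [pow_zero, div_one]
  simp only [mass_zero_scale]
  refine tsum_eq_sum fun z hz => ?_
  rw [hp.supp z hz, Real.negMulLog_zero]

theorem hh_zero_le (hp : Prb A p) : hh p 0 ≤ Real.log A.card := by
  have hne : A.Nonempty := by
    rw [Finset.nonempty_iff_ne_empty]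
    rintro rfl
    have h1 := hp.sum_one
    simp at h1
  rw [hh_zero hp]
  have h2 := up_aux A hne p fun u _ => hp.nonneg u
  rw [hp.sum_one, Real.negMulLog_one, zero_add, one_mul] at h2
  exact h2

theorem hh_unif (hp : Prb A p) (hu : ∀ z ∈ A, p z = 1 / A.card) : hh p 0 = Real.log A.card := by
  have hne : A.Nonempty := by
    rw [Finset.nonempty_iff_ne_empty]
    rintro rfl
    have h1 := hp.sum_one
    simp at h1
  have hn : (0 : ℝ) < A.card := by
    exact_mod_cast hne.card_pos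
  rw [hh_zero hp, Finset.sum_congr rfl fun z hz => by rw [hu z hz], Finset.sum_const, nsmul_eq_mul]
  simp only [Real.negMulLog, one_div, Real.log_inv]
  field_simp

theorem hh_top (hp : Prb A p) {t : ℕ} {o : G} (h : ∀ z ∈ A, z - o ∈ box t) : hh p t ≤ 4 := by
  classical
  have hsup : ∀ z, mass p t z ≠ 0 → z ∈ Finset.Ico o.1 (o.1 + 2 * 2 ^ t) ×ˢ
      Finset.Ico o.2 (o.2 + 2 * 2 ^ t) := by
    intro z hz
    obtain ⟨a, ha, b, hb, rfl⟩ := Finset.mem_add.1 (mass_supp hp hz)
    have h1 := mem_box.1 (h a ha)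
    have h2 := mem_box.1 hb
    simp only [Prod.fst_sub, Prod.snd_sub] at h1
    rw [Finset.mem_product, Finset.mem_Ico, Finset.mem_Ico]
    simp only [Prod.fst_add, Prod.snd_add]
    refine ⟨⟨?_, ?_⟩, ?_, ?_⟩ <;> linarith [h1.1.1, h1.1.2, h1.2.1, h1.2.2, h2.1.1, h2.1.2, h2.2.1, h2.2.2]
  unfold hh
  rw [div_le_iff₀ (by positivity), tsum_eq_sum (s := Finset.Ico o.1 (o.1 + 2 * 2 ^ t) ×ˢ
      Finset.Ico o.2 (o.2 + 2 * 2 ^ t)) fun z hz => by
    have h1 : mass p t z = 0 := by
      by_contra h2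
      exact hz (hsup z h2)
    rw [h1, Real.negMulLog_zero]]
  refine (Finset.sum_le_sum (g := fun _ => (1 : ℝ)) fun z _ => ?_).trans ?_
  · have h1 := mass_nonneg hp t z
    have h2 := Real.negMulLog_le_one_sub_self h1
    linarith
  · rw [Finset.sum_const, nsmul_eq_mul, mul_one, Finset.card_product, Int.card_Ico, Int.card_Ico]
    have h1 : (o.1 + 2 * 2 ^ t - o.1).toNat = 2 * 2 ^ t := by
      have : o.1 + 2 * 2 ^ t - o.1 = ((2 * 2 ^ t : ℕ) : ℤ) := by push_cast; ring
      rw [this, Int.toNat_natCast]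
    have h2 : (o.2 + 2 * 2 ^ t - o.2).toNat = 2 * 2 ^ t := by
      have : o.2 + 2 * 2 ^ t - o.2 = ((2 * 2 ^ t : ℕ) : ℤ) := by push_cast; ring
      rw [this, Int.toNat_natCast]
    rw [h1, h2]
    push_cast
    have h3 : (4 : ℝ) ^ t = 2 ^ t * 2 ^ t := by
      rw [← mul_pow]
      norm_num
    rw [h3]
    nlinarith

end Pool.Agent.Work.MP_0d53be_an.Full
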