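import Pool.Agent.Work.MP_0d53be_an.Full.E.Basic

/-!
# E/Split: a box of side `2^t` is a union of cells of side `2^s`

`mass_split`: the map `(u, b) ↦ 2^s u + b` is a bijection `box (t - s) × box s → box t`
(division with remainder by `2^s` in each coordinate: `0 ≤ m < 2^t` iff `0 ≤ m / 2^s < 2^(t-s)`,
and `m = 2^s (m / 2^s) + m % 2^s`). Hence
`mass p t z = ∑_{b' ∈ box t} p (z - b') = ∑_u ∑_b p (z - 2^s u - b)`.

`tsum_cells`: exchange the sums (finite sum outside: `Summable.tsum_finsetSum`, every summand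
has finite support), use the translation invariance of `∑'` over `G` (`Equiv.subRight` and
`Equiv.tsum_eq`), and `card (box (t - s)) = 4 ^ (t - s)`.
-/

set_option autoImplicit false

namespace Pool.Agent.Work.MP_0d53be_an.Full

open scoped Pointwise

private theorem split_eq {s t : ℕ} (h : s ≤ t) :
    box t = (box (t - s) ×ˢ box s).image fun x : G × G => (2 : ℤ) ^ s • x.1 + x.2 := by
  have hs : (0 : ℤ) < 2 ^ s := by positivity
  have hts : (2 : ℤ) ^ t = 2 ^ s * 2 ^ (t - s) := by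
    rw [← pow_add]
    congr 1
    omega
  have key : ∀ m : ℤ, (0 ≤ m ∧ m < 2 ^ t) →
      (0 ≤ m / 2 ^ s ∧ m / 2 ^ s < 2 ^ (t - s)) ∧ (0 ≤ m % 2 ^ s ∧ m % 2 ^ s < 2 ^ s) ∧
        2 ^ s * (m / 2 ^ s) + m % 2 ^ s = m := by
    rintro m ⟨h1, h2⟩
    refine ⟨⟨Int.ediv_nonneg h1 hs.le, ?_⟩, ⟨Int.emod_nonneg _ hs.ne', Int.emod_lt_of_pos _ hs⟩,
      Int.mul_ediv_add_emod _ _⟩
    apply Int.ediv_lt_of_lt_mul hs
    rw [hts] at h2
    linarith [mul_comm ((2 : ℤ) ^ s) (2 ^ (t - s))]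
  have key2 : ∀ q r : ℤ, (0 ≤ q ∧ q < 2 ^ (t - s)) → (0 ≤ r ∧ r < 2 ^ s) →
      0 ≤ 2 ^ s * q + r ∧ 2 ^ s * q + r < 2 ^ t := by
    rintro q r ⟨h1, h2⟩ ⟨h3, h4⟩
    refine ⟨add_nonneg (mul_nonneg hs.le h1) h3, ?_⟩
    have h5 : (2 : ℤ) ^ s * (q + 1) ≤ 2 ^ s * 2 ^ (t - s) :=
      mul_le_mul_of_nonneg_left (by linarith) hs.le
    rw [hts]
    linarith
  ext b
  rw [Finset.mem_image]
  constructor
  · intro hb
    rw [mem_box] at hb
    obtain ⟨a1, a2, a3⟩ := key _ hb.1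
    obtain ⟨b1, b2, b3⟩ := key _ hb.2
    refine ⟨((b.1 / 2 ^ s, b.2 / 2 ^ s), (b.1 % 2 ^ s, b.2 % 2 ^ s)), ?_, ?_⟩
    · rw [Finset.mem_product, mem_box, mem_box]
      exact ⟨⟨a1, b1⟩, ⟨a2, b2⟩⟩
    · ext
      · exact a3
      · exact b3
  · rintro ⟨⟨u, c⟩, hx, rfl⟩
    rw [Finset.mem_product, mem_box, mem_box] at hx
    rw [mem_box]
    exact ⟨key2 _ _ hx.1.1 hx.2.1, key2 _ _ hx.1.2 hx.2.2⟩

private theorem split_inj (s r : ℕ) : Set.InjOn (fun x : G × G => (2 : ℤ) ^ s • x.1 + x.2)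
    (↑(box r ×ˢ box s) : Set (G × G)) := by
  have hs : (0 : ℤ) < 2 ^ s := by positivity
  have key : ∀ q r q' r' : ℤ, (0 ≤ r ∧ r < 2 ^ s) → (0 ≤ r' ∧ r' < 2 ^ s) →
      2 ^ s * q + r = 2 ^ s * q' + r' → q = q' ∧ r = r' := by
    rintro q r q' r' ⟨h1, h2⟩ ⟨h3, h4⟩ h5
    have h6 : r = r' := by
      have h7 := congrArg (· % (2 : ℤ) ^ s) h5
      simp only [Int.mul_add_emod_self_left] at h7
      rwa [Int.emod_eq_of_lt h1 h2, Int.emod_eq_of_lt h3 h4] at h7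
    refine ⟨?_, h6⟩
    rw [h6] at h5
    exact mul_left_cancel₀ hs.ne' (add_right_cancel h5)
  rintro ⟨u, b⟩ hx ⟨u', b'⟩ hx' hE
  rw [Finset.mem_coe, Finset.mem_product, mem_box, mem_box] at hx hx'
  have e1 : 2 ^ s * u.1 + b.1 = 2 ^ s * u'.1 + b'.1 := congrArg Prod.fst hE
  have e2 : 2 ^ s * u.2 + b.2 = 2 ^ s * u'.2 + b'.2 := congrArg Prod.snd hE
  obtain ⟨a1, a2⟩ := key _ _ _ _ hx.2.1 hx'.2.1 e1
  obtain ⟨a3, a4⟩ := key _ _ _ _ hx.2.2 hx'.2.2 e2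
  exact Prod.ext (Prod.ext a1 a3) (Prod.ext a2 a4)

theorem mass_split (p : G → ℝ) {s t : ℕ} (h : s ≤ t) (z : G) :
    mass p t z = ∑ u ∈ box (t - s), mass p s (z - (2 : ℤ) ^ s • u) := by
  unfold mass
  rw [split_eq h, Finset.sum_image fun x hx y hy hxy => split_inj s (t - s) hx hy hxy,
    Finset.sum_product]
  refine Finset.sum_congr rfl fun u _ => Finset.sum_congr rfl fun b _ => ?_
  rw [sub_sub]

theorem tsum_cells {F : G → ℝ} (hF : (Function.support F).Finite) (s r : ℕ) :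
    ∑' z, ∑ u ∈ box r, F (z - (2 : ℤ) ^ s • u) = 4 ^ r * ∑' z, F z := by
  have hs : ∀ b : G, Summable fun z => F (z - b) := fun b =>
    summable_of_hasFiniteSupport (hF.preimage ((Equiv.subRight b).injective.injOn))
  rw [Summable.tsum_finsetSum fun u _ => hs _]
  have h1 : ∀ b : G, ∑' z, F (z - b) = ∑' z, F z := fun b => (Equiv.subRight b).tsum_eq F
  rw [Finset.sum_congr rfl fun u _ => h1 _, Finset.sum_const, card_box, nsmul_eq_mul]
  push_cast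
  rfl

end Pool.Agent.Work.MP_0d53be_an.Full
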